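import Mathlib
import Pool.Agent.Helper46.QL.Q2

/-!
# A projector and its complement
-/

universe u v w t

open CategoryTheory TensorProduct

namespace Pool.Agent.Helper47.PR

open Pool.Agent.Helper10 Pool.Agent.Helper11.Iso SmProjVar SPre Pool.Agent.Helper34.ZP

variable {k : Type u} [Field k] {K : Type t} [Field K] {Ω : Type v} [Field Ω] [Algebra K Ω]
  {P : SPre.{u, v, w, t} k K Ω}

/-- a projector and its complement, on `U × (Y × Y)` -/
theorem rho_compl [CharZero Ω] {U Y : SmProjVar k} {e : P.H U →ₗ[Ω] P.H U} (he : e ∈ Mor P U U)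
    (hee : e ∘ₗ e = e) :
    Module.finrank Ω (LinearMap.range e) * nr P (Y.prod Y) + nr P (U.prod (Y.prod Y)) ≤
      rho P (tmap e (LinearMap.id : P.H (Y.prod Y) →ₗ[Ω] P.H (Y.prod Y))) +
        Module.finrank Ω (P.H U) * nr P (Y.prod Y) := by
  have := P.fin U
  have h1 := Pool.Agent.Helper46.QL.nr_le_rho_add (P := P) U Y he hee
  have h2 : Module.finrank Ω (LinearMap.range e) ≤ Module.finrank Ω (P.H U) :=
    Submodule.finrank_le _
  obtain ⟨n, hn⟩ := Nat.exists_eq_add_of_le h2
  rw [hn, Nat.add_sub_cancel_left] at h1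
  rw [hn, add_mul]
  omega

end Pool.Agent.Helper47.PR
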