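import Mathlib

/-!
# The polynomial rate: the numerical part
-/

open Finset

namespace Pool.Agent.Helper47.PR

/-- ratios of a log-convex sequence which is large at `l` -/
theorem ratio_at {c : ℕ → ℕ} {b D : ℕ} (hb : 1 ≤ b) (hc : ∀ l, 1 ≤ c l)
    (hconv : ∀ l, c (l + 1) ^ 2 ≤ c l * c (l + 2)) {l : ℕ} (hl : 1 ≤ l)
    (hgr : (b : ℝ) ^ (2 * l) * c 0 ≤ c l * ((l : ℝ) + 2) ^ D) (j : ℕ) :
    (b : ℝ) ^ (2 * j) * (1 - j * (D * Real.log (l + 2) / l)) * c l ≤ c (l + j) := by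
  have hcp : ∀ l, (0 : ℝ) < c l := fun l => by exact_mod_cast hc l
  have hl0 : (0 : ℝ) < l := by exact_mod_cast hl
  have hl2 : (0 : ℝ) < (l : ℝ) + 2 := by positivity
  rcases Nat.eq_zero_or_pos j with rfl | hj
  · simp
  by_cases hDl : D * Real.log (l + 2) ≤ l
  swap
  · have h1 : 1 < D * Real.log (l + 2) / l := by
      rw [lt_div_iff₀ hl0, one_mul]
      exact lt_of_not_ge hDl
    have hj1 : (1 : ℝ) ≤ j := by exact_mod_cast hj
    have h2 : 1 - j * (D * Real.log (l + 2) / l) ≤ 0 := by nlinarith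
    have h3 : (b : ℝ) ^ (2 * j) * (1 - j * (D * Real.log (l + 2) / l)) * c l ≤ 0 := by
      refine mul_nonpos_of_nonpos_of_nonneg ?_ (hcp l).le
      exact mul_nonpos_of_nonneg_of_nonpos (by positivity) h2
    exact h3.trans (hcp _).le
  -- the ratios increase
  let ρ : ℕ → ℝ := fun l => c (l + 1) / c l
  have hρ : ∀ l, ρ l ≤ ρ (l + 1) := by
    intro l
    change (c (l + 1) : ℝ) / c l ≤ c (l + 1 + 1) / c (l + 1)
    rw [div_le_div_iff₀ (hcp l) (hcp (l + 1))]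
    have := hconv l
    have h2 : ((c (l + 1) ^ 2 : ℕ) : ℝ) ≤ ((c l * c (l + 2) : ℕ) : ℝ) := by exact_mod_cast this
    push_cast at h2
    nlinarith [h2]
  have hρm : Monotone ρ := monotone_nat_of_le_succ hρ
  have hρ0 : ∀ l, 0 < ρ l := fun l => div_pos (hcp _) (hcp _)
  have hcs : ∀ l, (c (l + 1) : ℝ) = ρ l * c l := fun l => by
    change (c (l + 1) : ℝ) = c (l + 1) / c l * c l
    rw [div_mul_cancel₀ _ (hcp l).ne']
  -- before `l`
  have hbef : ∀ i ≤ l, (c i : ℝ) ≤ ρ l ^ i * c 0 := by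
    intro i
    induction i with
    | zero => intro _; rw [pow_zero, one_mul]
    | succ i ih =>
      intro hi
      rw [hcs, pow_succ]
      calc ρ i * (c i : ℝ) ≤ ρ l * (ρ l ^ i * c 0) :=
            mul_le_mul (hρm (by omega)) (ih (by omega)) (hcp i).le (hρ0 l).le
        _ = ρ l ^ i * ρ l * c 0 := by ring
  -- after `l`
  have haft : ∀ j, ρ l ^ j * c l ≤ c (l + j) := by
    intro j
    induction j with
    | zero => rw [pow_zero, one_mul, add_zero]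
    | succ j ih =>
      rw [← add_assoc, hcs, pow_succ]
      calc ρ l ^ j * ρ l * (c l : ℝ) = ρ l * (ρ l ^ j * c l) := by ring
        _ ≤ ρ (l + j) * c (l + j) :=
          mul_le_mul (hρm (by omega)) ih (by positivity) (hρ0 _).le
  have h1 : (b : ℝ) ^ (2 * l) ≤ ((l : ℝ) + 2) ^ D * ρ l ^ l := by
    have e1 : (b : ℝ) ^ (2 * l) * c 0 ≤ (((l : ℝ) + 2) ^ D * ρ l ^ l) * c 0 := by
      calc (b : ℝ) ^ (2 * l) * c 0 ≤ c l * ((l : ℝ) + 2) ^ D := hgr
        _ ≤ (ρ l ^ l * c 0) * ((l : ℝ) + 2) ^ D :=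
          mul_le_mul_of_nonneg_right (hbef l le_rfl) (by positivity)
        _ = (((l : ℝ) + 2) ^ D * ρ l ^ l) * c 0 := by ring
    exact le_of_mul_le_mul_right e1 (hcp 0)
  have hx : (0 : ℝ) ≤ 1 - D * Real.log (l + 2) / l := by
    rw [sub_nonneg, div_le_one hl0]
    exact hDl
  have h2 : (b : ℝ) ^ 2 * (1 - D * Real.log (l + 2) / l) ≤ ρ l := by
    by_contra hlt
    have hlt := lt_of_not_ge hlt
    have h3 : 1 - D * Real.log (l + 2) / l ≤ Real.exp (-(D * Real.log (l + 2) / l)) := by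
      have := Real.add_one_le_exp (-(D * Real.log (l + 2) / l))
      linarith
    have hb0 : (0 : ℝ) < b := by exact_mod_cast hb
    have h4 : ρ l < (b : ℝ) ^ 2 * Real.exp (-(D * Real.log (l + 2) / l)) :=
      lt_of_lt_of_le hlt (mul_le_mul_of_nonneg_left h3 (by positivity))
    have h5 : ρ l ^ l < ((b : ℝ) ^ 2 * Real.exp (-(D * Real.log (l + 2) / l))) ^ l :=
      pow_lt_pow_left₀ h4 (hρ0 l).le (by omega)
    have h6 : ((b : ℝ) ^ 2 * Real.exp (-(D * Real.log (l + 2) / l))) ^ l =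
        (b : ℝ) ^ (2 * l) * (((l : ℝ) + 2) ^ D)⁻¹ := by
      rw [mul_pow, ← pow_mul, ← Real.exp_nat_mul]
      congr 1
      have h7 : (l : ℝ) * (-(D * Real.log (l + 2) / l)) = -(D * Real.log (l + 2)) := by
        field_simp
      rw [h7, Real.exp_neg, ← Real.log_pow, Real.exp_log (by positivity)]
    rw [h6, ← div_eq_mul_inv, lt_div_iff₀ (by positivity)] at h5
    nlinarith [h1, h5]
  refine le_trans ?_ (haft j)
  refine mul_le_mul_of_nonneg_right ?_ (hcp l).le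
  have h3 : ((b : ℝ) ^ 2 * (1 - D * Real.log (l + 2) / l)) ^ j ≤ ρ l ^ j :=
    pow_le_pow_left₀ (mul_nonneg (by positivity) hx) h2 j
  refine le_trans ?_ h3
  rw [mul_pow, ← pow_mul]
  refine mul_le_mul_of_nonneg_left ?_ (by positivity)
  have h4 := one_add_mul_le_pow (a := -(D * Real.log (l + 2) / l)) (by linarith) j
  calc (1 : ℝ) - j * (D * Real.log (l + 2) / l) = 1 + j * -(D * Real.log (l + 2) / l) := by ring
    _ ≤ (1 + -(D * Real.log (l + 2) / l)) ^ j := h4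
    _ = (1 - D * Real.log (l + 2) / l) ^ j := by rw [sub_eq_add_neg]

/-- the Koszul recursion: a bound for the defects -/
theorem defect_bound {d : ℕ} (s lam : ℕ → ℝ) (cl η : ℝ) (A : ℕ → ℕ → ℝ) (hcl : 0 ≤ cl)
    (hη : 0 ≤ η) (hs0 : s 0 = 1) (hlam0 : lam 0 = 1) (hlamd : ∀ j, d < j → lam j = 0)
    (hs : ∀ k, 0 ≤ s k) (hsd : ∀ k, s k ≤ ((k : ℝ) + 1) ^ d)
    (hkos : ∀ k, 1 ≤ k → ∑ j ∈ range (k + 1), (-1 : ℝ) ^ j * (lam j * s (k - j)) = 0)
    (hA0 : A 0 0 = cl)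
    (hkA : ∀ k, 1 ≤ k → ∑ j ∈ range (k + 1), (-1 : ℝ) ^ j * A j (k - j) = 0)
    (hcs0 : ∀ j i, d < j → A j i = 0)
    (hcs : ∀ j i, 1 ≤ j → j ≤ d → |lam j * A 0 i - A j i| ≤ ((i : ℝ) + 1) ^ d * (cl * η))
    (k : ℕ) : |s k * cl - A 0 k| ≤ d * ((k : ℝ) + 1) ^ (2 * d + 1) * (cl * η) := by
  let Λ : PowerSeries ℝ := PowerSeries.mk fun j => (-1 : ℝ) ^ j * lam j
  let S : PowerSeries ℝ := PowerSeries.mk s
  let F : PowerSeries ℝ := PowerSeries.mk fun i => s i * cl - A 0 i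
  have hSL : Λ * S = 1 := by
    ext n
    rw [PowerSeries.coeff_mul, PowerSeries.coeff_one,
      Finset.Nat.sum_antidiagonal_eq_sum_range_succ_mk]
    simp only [Λ, S, PowerSeries.coeff_mk]
    by_cases hn : n = 0
    · subst hn
      simp [hs0, hlam0]
    · rw [if_neg hn, ← hkos n (Nat.one_le_iff_ne_zero.2 hn)]
      exact sum_congr rfl fun j _ => by ring
  have hcη : 0 ≤ cl * η := mul_nonneg hcl hη
  -- the bound for `R = Λ F`
  have hR : ∀ n : ℕ, |PowerSeries.coeff n (Λ * F)| ≤ d * ((n : ℝ) + 1) ^ d * (cl * η) := by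
    intro n
    have hn0 : (0 : ℝ) ≤ d * ((n : ℝ) + 1) ^ d * (cl * η) := by positivity
    rcases Nat.eq_zero_or_pos n with rfl | hn
    · have : PowerSeries.coeff 0 (Λ * F) = 0 := by
        rw [PowerSeries.coeff_mul, Finset.Nat.sum_antidiagonal_eq_sum_range_succ_mk]
        simp [Λ, F, hs0, hA0]
      rw [this, abs_zero]
      exact hn0
    · have h1 : PowerSeries.coeff n (Λ * F) =
          -∑ j ∈ range (n + 1), (-1 : ℝ) ^ j * (lam j * A 0 (n - j) - A j (n - j)) := by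
        rw [PowerSeries.coeff_mul, Finset.Nat.sum_antidiagonal_eq_sum_range_succ_mk]
        simp only [Λ, F, PowerSeries.coeff_mk]
        have h2 := hkos n hn
        have h3 := hkA n hn
        have h4 : ∑ j ∈ range (n + 1), (-1 : ℝ) ^ j * lam j * (s (n - j) * cl - A 0 (n - j)) =
            cl * (∑ j ∈ range (n + 1), (-1 : ℝ) ^ j * (lam j * s (n - j))) -
              (∑ j ∈ range (n + 1), (-1 : ℝ) ^ j * (lam j * A 0 (n - j) - A j (n - j)) +
                ∑ j ∈ range (n + 1), (-1 : ℝ) ^ j * A j (n - j)) := by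
          rw [← sum_add_distrib, mul_sum, ← sum_sub_distrib]
          exact sum_congr rfl fun j _ => by ring
        rw [h4, h2, h3, mul_zero, add_zero, zero_sub]
      rw [h1, abs_neg]
      refine (abs_sum_le_sum_abs _ _).trans ?_
      have hterm : ∀ j ∈ range (n + 1), |(-1 : ℝ) ^ j * (lam j * A 0 (n - j) - A j (n - j))| ≤
          if j ∈ Icc 1 d then ((n : ℝ) + 1) ^ d * (cl * η) else 0 := by
        intro j hj
        rw [abs_mul, abs_pow, abs_neg, abs_one, one_pow, one_mul]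
        by_cases hj1 : j ∈ Icc 1 d
        · rw [if_pos hj1]
          rw [mem_Icc] at hj1
          refine (hcs j (n - j) hj1.1 hj1.2).trans (mul_le_mul_of_nonneg_right ?_ hcη)
          refine pow_le_pow_left₀ (by positivity) ?_ d
          have : ((n - j : ℕ) : ℝ) ≤ n := by exact_mod_cast Nat.sub_le n j
          linarith
        · rw [if_neg hj1]
          rw [mem_Icc] at hj1
          by_cases hj0 : j = 0
          · subst hj0
            rw [hlam0, one_mul, sub_self, abs_zero]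
          · have hjd : d < j := by omega
            rw [hcs0 j _ hjd, hlamd j hjd, zero_mul, sub_self, abs_zero]
      refine (sum_le_sum hterm).trans ?_
      rw [← sum_filter, sum_const, nsmul_eq_mul, mul_assoc]
      refine mul_le_mul_of_nonneg_right ?_ (by positivity)
      have h5 : (filter (fun j => j ∈ Icc 1 d) (range (n + 1))).card ≤ d := by
        calc (filter (fun j => j ∈ Icc 1 d) (range (n + 1))).card ≤ (Icc 1 d).card :=
              card_le_card fun j hj => (mem_filter.1 hj).2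
          _ = d := by rw [Nat.card_Icc, Nat.add_sub_cancel]
      exact_mod_cast h5
  -- the inverse
  have hF : F = S * (Λ * F) := by
    rw [← mul_assoc, mul_comm S Λ, hSL, one_mul]
  have hk : s k * cl - A 0 k = PowerSeries.coeff k F := by
    simp only [F, PowerSeries.coeff_mk]
  rw [hk, hF, PowerSeries.coeff_mul]
  refine (abs_sum_le_sum_abs _ _).trans ?_
  have hterm : ∀ p ∈ antidiagonal k,
      |PowerSeries.coeff p.1 S * PowerSeries.coeff p.2 (Λ * F)| ≤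
        ((k : ℝ) + 1) ^ d * (d * ((k : ℝ) + 1) ^ d * (cl * η)) := by
    intro p hp
    rw [Finset.HasAntidiagonal.mem_antidiagonal] at hp
    rw [abs_mul]
    have e1 : PowerSeries.coeff p.1 S = s p.1 := by simp only [S, PowerSeries.coeff_mk]
    have hp1 : (p.1 : ℝ) ≤ k := by exact_mod_cast (by omega : p.1 ≤ k)
    have hp2 : (p.2 : ℝ) ≤ k := by exact_mod_cast (by omega : p.2 ≤ k)
    rw [e1, abs_of_nonneg (hs _)]
    refine mul_le_mul ?_ ?_ (abs_nonneg _) (by positivity)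
    · exact (hsd _).trans (pow_le_pow_left₀ (by positivity) (by linarith) d)
    · refine (hR _).trans (mul_le_mul_of_nonneg_right ?_ hcη)
      refine mul_le_mul_of_nonneg_left ?_ (Nat.cast_nonneg d)
      exact pow_le_pow_left₀ (by positivity) (by linarith) d
  refine (sum_le_sum hterm).trans ?_
  rw [sum_const, Finset.Nat.card_antidiagonal, nsmul_eq_mul]
  push_cast
  have e : ((k : ℝ) + 1) * (((k : ℝ) + 1) ^ d * (d * ((k : ℝ) + 1) ^ d * (cl * η))) =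
      d * ((k : ℝ) + 1) ^ (2 * d + 1) * (cl * η) := by
    rw [show 2 * d + 1 = d + d + 1 by ring, pow_succ, pow_add]
    ring
  exact e.le

/-- piece N: the polynomial rate -/
theorem poly_numeric (b d r D0 : ℕ) (hb : 1 ≤ b) (hr : 1 ≤ r) : ∃ C α : ℝ, 0 < C ∧ 0 < α ∧
    ∀ (a c s lam : ℕ → ℕ) (A : ℕ → ℕ → ℕ → ℕ),
    (∀ l, 1 ≤ c l) → (∀ l, c l ≤ b ^ (2 * (l + 1))) → (∀ l, c (l + 1) ^ 2 ≤ c l * c (l + 2)) →
    (∀ l, b ^ (2 * l) ≤ a l * (l + 2) ^ D0) →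
    s 0 = 1 → lam 0 = 1 → (∀ j, d < j → lam j = 0) → (∀ j, lam j ≤ b ^ (2 * r * j)) →
    (∀ k, s k ≤ (k + 1) ^ d) → (∀ k, 1 ≤ s k) →
    (∀ k, 1 ≤ k → ∑ j ∈ range (k + 1), (-1 : ℤ) ^ j * (lam j * s (k - j) : ℕ) = 0) →
    (∀ l, A l 0 0 = c l) →
    (∀ l k, 1 ≤ k → ∑ j ∈ range (k + 1), (-1 : ℤ) ^ j * A l j (k - j) = 0) →
    (∀ l j i, ((lam j : ℤ) * A l 0 i - A l j i) ^ 2 ≤
      2 * lam j * (s i) ^ 2 * c l * (lam j * c l - A l j 0)) →
    (∀ l j, 1 ≤ j → lam j * c l + c (l + r * j) ≤ A l j 0 + b ^ (2 * r * j) * c l) →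
    (∀ l k0, c l + ∑ k ∈ range k0, A l 0 (k + 1) ≤
      a l + ∑ k ∈ range k0, (s (k + 1) - 1) * c l) →
    ∀ l : ℕ, (c l : ℝ) * ((l : ℝ) + 2) ^ α ≤ C * a l := by
  obtain ⟨D, hDdef⟩ : ∃ D : ℕ, D0 + 1 + b ^ 2 = D := ⟨_, rfl⟩
  obtain ⟨n, hndef⟩ : ∃ n : ℕ, 4 * d + 4 = n := ⟨_, rfl⟩
  have hn : n ≠ 0 := by omega
  have hn0 : (0 : ℝ) < n := by exact_mod_cast Nat.pos_of_ne_zero hn
  obtain ⟨M0, hM0⟩ : ∃ M0 : ℝ, 6 * (d : ℝ) ^ 3 * (b : ℝ) ^ (4 * r * d) * r * D * n = M0 :=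
    ⟨_, rfl⟩
  have hM0' : 0 ≤ M0 := by rw [← hM0]; positivity
  refine ⟨4 * M0 + 2, (n : ℝ)⁻¹, by positivity, by positivity, ?_⟩
  intro a c s lam A hc hcb hconv hgr hs0 hlam0 hlamd hlamb hsd hs1 hkos hA0 hkA hcs hlow hlay l
  obtain ⟨y, hy⟩ : ∃ y : ℝ, ((l : ℝ) + 2) ^ ((n : ℝ)⁻¹) = y := ⟨_, rfl⟩
  rw [hy]
  have hl00 : (0 : ℝ) ≤ l := Nat.cast_nonneg l
  have hyn : y ^ n = (l : ℝ) + 2 := by
    rw [← hy]
    exact Real.rpow_inv_natCast_pow (by positivity) hn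
  have hy1 : 1 ≤ y := by
    rw [← hy]
    exact Real.one_le_rpow (by linarith) (by positivity)
  have hy0 : 0 < y := by linarith
  have hac : (c l : ℝ) ≤ a l := by
    have h := hlay l 0
    rw [range_zero, sum_empty, sum_empty, add_zero, add_zero] at h
    exact_mod_cast h
  have hyl : y ≤ l + 2 := by
    rw [← hyn]
    exact le_self_pow₀ hy1 hn
  have hcp : (0 : ℝ) < c l := by exact_mod_cast hc l
  have hap : (0 : ℝ) < a l := lt_of_lt_of_le hcp hac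
  have hMa : 0 ≤ 4 * M0 * a l := by positivity
  by_cases hy4 : y < 4 * M0
  · calc (c l : ℝ) * y ≤ a l * (4 * M0) := mul_le_mul hac hy4.le hy0.le hap.le
      _ ≤ (4 * M0 + 2) * a l := by linarith
  by_cases hbig : (c l : ℝ) * (l + 2) ≤ a l
  · calc (c l : ℝ) * y ≤ c l * (l + 2) := mul_le_mul_of_nonneg_left hyl hcp.le
      _ ≤ a l := hbig
      _ ≤ (4 * M0 + 2) * a l := by linarith
  rcases Nat.eq_zero_or_pos l with hl0 | hl
  · subst hl0
    rw [Nat.cast_zero, zero_add] at hyl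
    calc (c 0 : ℝ) * y ≤ a 0 * 2 := mul_le_mul hac hyl hy0.le hap.le
      _ ≤ (4 * M0 + 2) * a 0 := by linarith
  have hy4 := le_of_not_gt hy4
  have hbig := lt_of_not_ge hbig
  have hl1 : (1 : ℝ) ≤ l := by exact_mod_cast hl
  have hb1 : (1 : ℝ) ≤ b := by exact_mod_cast hb
  -- the ratios of `c`
  have hgr' : (b : ℝ) ^ (2 * l) * c 0 ≤ c l * ((l : ℝ) + 2) ^ D := by
    have e1 : (b : ℝ) ^ (2 * l) ≤ a l * ((l : ℝ) + 2) ^ D0 := by exact_mod_cast hgr l
    have e3 : (c 0 : ℝ) ≤ ((l : ℝ) + 2) ^ (b ^ 2) := by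
      have h3 : c 0 ≤ 2 ^ (b ^ 2) := (hcb 0).trans (by
        rw [zero_add, mul_one]
        exact Nat.lt_two_pow_self.le)
      have h4 : ((c 0 : ℕ) : ℝ) ≤ (2 : ℝ) ^ (b ^ 2) := by exact_mod_cast h3
      exact h4.trans (pow_le_pow_left₀ (by norm_num) (by linarith) _)
    calc (b : ℝ) ^ (2 * l) * c 0 ≤ (a l * ((l : ℝ) + 2) ^ D0) * ((l : ℝ) + 2) ^ (b ^ 2) :=
          mul_le_mul e1 e3 (Nat.cast_nonneg _) (by positivity)
      _ ≤ ((c l * (l + 2)) * ((l : ℝ) + 2) ^ D0) * ((l : ℝ) + 2) ^ (b ^ 2) := by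
          gcongr
      _ = c l * ((l : ℝ) + 2) ^ D := by
          rw [← hDdef, pow_add, pow_succ]
          ring
  obtain ⟨q, hq⟩ : ∃ q : ℝ, D * Real.log (l + 2) / l = q := ⟨_, rfl⟩
  have hlog0 : 0 ≤ Real.log ((l : ℝ) + 2) := Real.log_nonneg (by linarith)
  have hq0 : 0 ≤ q := by rw [← hq]; positivity
  have hE : ∀ j, 1 ≤ j → j ≤ d → (lam j : ℝ) * c l - A l j 0 ≤
      (b : ℝ) ^ (2 * r * d) * (r * d) * q * c l := by
    intro j hj1 hjd
    have h1 := ratio_at hb hc hconv hl hgr' (r * j)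
    rw [hq] at h1
    have h2 : (lam j : ℝ) * c l + c (l + r * j) ≤ A l j 0 + (b : ℝ) ^ (2 * r * j) * c l := by
      exact_mod_cast hlow l j hj1
    have h3 : 2 * (r * j) = 2 * r * j := by ring
    rw [h3] at h1
    have h4 : (b : ℝ) ^ (2 * r * j) ≤ (b : ℝ) ^ (2 * r * d) :=
      pow_le_pow_right₀ hb1 (Nat.mul_le_mul_left _ hjd)
    have h5 : ((r * j : ℕ) : ℝ) ≤ r * d := by
      exact_mod_cast Nat.mul_le_mul_left r hjd
    have h6 : (b : ℝ) ^ (2 * r * j) * ((r * j : ℕ) : ℝ) ≤ (b : ℝ) ^ (2 * r * d) * (r * d) :=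
      mul_le_mul h4 h5 (Nat.cast_nonneg _) (by positivity)
    have h7 : (b : ℝ) ^ (2 * r * j) * ((r * j : ℕ) : ℝ) * (q * c l) ≤
        (b : ℝ) ^ (2 * r * d) * (r * d) * (q * c l) :=
      mul_le_mul_of_nonneg_right h6 (by positivity)
    nlinarith [h1, h2, h7]
  -- the defects
  obtain ⟨η2, hη2⟩ : ∃ η2 : ℝ, 2 * (b : ℝ) ^ (4 * r * d) * r * d * q = η2 := ⟨_, rfl⟩
  have hη20 : 0 ≤ η2 := by rw [← hη2]; positivity
  have hdef := defect_bound (d := d) (fun k => (s k : ℝ))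
    (fun j => (lam j : ℝ)) (c l : ℝ) (√η2) (fun j i => (A l j i : ℝ)) hcp.le
    (Real.sqrt_nonneg _)
    (by change (s 0 : ℝ) = 1; rw [hs0, Nat.cast_one])
    (by change (lam 0 : ℝ) = 1; rw [hlam0, Nat.cast_one])
    (fun j hj => by change (lam j : ℝ) = 0; rw [hlamd j hj, Nat.cast_zero])
    (fun k => Nat.cast_nonneg _)
    (fun k => by
      change (s k : ℝ) ≤ _
      exact_mod_cast hsd k)
    (fun k hk => by
      have h := hkos k hk
      have h2 : ((∑ j ∈ range (k + 1), (-1 : ℤ) ^ j * (lam j * s (k - j) : ℕ) : ℤ) : ℝ) = 0 := by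
        rw [h, Int.cast_zero]
      push_cast at h2
      exact h2)
    (by change (A l 0 0 : ℝ) = _; rw [hA0])
    (fun k hk => by
      have h := hkA l k hk
      have h2 : ((∑ j ∈ range (k + 1), (-1 : ℤ) ^ j * A l j (k - j) : ℤ) : ℝ) = 0 := by
        rw [h, Int.cast_zero]
      push_cast at h2
      exact h2)
    (fun j i hj => by
      have h := hcs l j i
      rw [hlamd j hj] at h
      have h3 : (A l j i : ℤ) = 0 := by
        have h4 : (A l j i : ℤ) ^ 2 ≤ 0 := by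
          calc (A l j i : ℤ) ^ 2 = (((0 : ℕ) : ℤ) * A l 0 i - A l j i) ^ 2 := by push_cast; ring
            _ ≤ _ := h
            _ = 0 := by push_cast; ring
        exact pow_eq_zero_iff (two_ne_zero) |>.1 (le_antisymm h4 (sq_nonneg _))
      change (A l j i : ℝ) = 0
      exact_mod_cast h3)
    (fun j i hj1 hjd => by
      change |(lam j : ℝ) * A l 0 i - A l j i| ≤ ((i : ℝ) + 1) ^ d * (c l * √η2)
      have h : ((lam j : ℝ) * A l 0 i - A l j i) ^ 2 ≤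
          2 * lam j * (s i) ^ 2 * c l * (lam j * c l - A l j 0) := by
        exact_mod_cast hcs l j i
      refine abs_le_of_sq_le_sq ?_ (by positivity)
      have h1 : (lam j : ℝ) ≤ (b : ℝ) ^ (2 * r * d) := by
        have h2 : (lam j : ℝ) ≤ (b : ℝ) ^ (2 * r * j) := by exact_mod_cast hlamb j
        exact h2.trans (pow_le_pow_right₀ hb1 (Nat.mul_le_mul_left _ hjd))
      have h2 : (s i : ℝ) ≤ ((i : ℝ) + 1) ^ d := by exact_mod_cast hsd i
      have h3 : ((s i : ℝ)) ^ 2 ≤ (((i : ℝ) + 1) ^ d) ^ 2 :=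
        pow_le_pow_left₀ (Nat.cast_nonneg _) h2 2
      have hB0 : 0 ≤ (b : ℝ) ^ (2 * r * d) * (r * d) * q * c l := by positivity
      calc ((lam j : ℝ) * A l 0 i - A l j i) ^ 2
          ≤ 2 * lam j * (s i) ^ 2 * c l * (lam j * c l - A l j 0) := h
        _ ≤ 2 * lam j * (s i) ^ 2 * c l * ((b : ℝ) ^ (2 * r * d) * (r * d) * q * c l) :=
          mul_le_mul_of_nonneg_left (hE j hj1 hjd) (by positivity)
        _ ≤ 2 * (b : ℝ) ^ (2 * r * d) * (((i : ℝ) + 1) ^ d) ^ 2 * c l *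
            ((b : ℝ) ^ (2 * r * d) * (r * d) * q * c l) := by
          gcongr
        _ = (((i : ℝ) + 1) ^ d * c l) ^ 2 * η2 := by
          rw [← hη2, show 4 * r * d = 2 * r * d + 2 * r * d by ring, pow_add]
          ring
        _ = (((i : ℝ) + 1) ^ d * (c l * √η2)) ^ 2 := by
          rw [← mul_assoc, mul_pow _ (√η2), Real.sq_sqrt hη20])
  -- the number of layers
  obtain ⟨K, hK⟩ : ∃ K : ℕ, ⌊y⌋₊ = K := ⟨_, rfl⟩
  have hK1 : 1 ≤ K := by
    rw [← hK]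
    exact Nat.le_floor (by exact_mod_cast hy1)
  have hKy : (K : ℝ) ≤ y := by
    rw [← hK]
    exact Nat.floor_le hy0.le
  have hyK : y < K + 1 := by
    rw [← hK]
    exact Nat.lt_floor_add_one y
  have hsmall : d * (K : ℝ) ^ (2 * d + 1) * √η2 ≤ 1 / 2 := by
    refine (abs_le_of_sq_le_sq' ?_ (by norm_num)).2
    have h1 : (d * (K : ℝ) ^ (2 * d + 1) * √η2) ^ 2 =
        (d : ℝ) ^ 2 * ((K : ℝ) ^ (2 * d + 1)) ^ 2 * η2 := by
      rw [mul_pow, Real.sq_sqrt hη20, mul_pow]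
    have hql : q * l = D * Real.log (l + 2) := by
      rw [← hq, div_mul_cancel₀ _ (by positivity)]
    have hlogy : Real.log ((l : ℝ) + 2) ≤ n * y := by
      rw [← hyn, Real.log_pow]
      exact mul_le_mul_of_nonneg_left ((Real.log_le_sub_one_of_pos hy0).trans (by linarith))
        hn0.le
    have h2 : ((K : ℝ) ^ (2 * d + 1)) ^ 2 ≤ (y ^ (2 * d + 1)) ^ 2 :=
      pow_le_pow_left₀ (by positivity) (pow_le_pow_left₀ (Nat.cast_nonneg _) hKy _) 2
    have h3 : (d : ℝ) ^ 2 * ((K : ℝ) ^ (2 * d + 1)) ^ 2 * η2 * l ≤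
        (d : ℝ) ^ 2 * (y ^ (2 * d + 1)) ^ 2 *
          (2 * (b : ℝ) ^ (4 * r * d) * r * d * (D * (n * y))) := by
      calc (d : ℝ) ^ 2 * ((K : ℝ) ^ (2 * d + 1)) ^ 2 * η2 * l
          = (d : ℝ) ^ 2 * ((K : ℝ) ^ (2 * d + 1)) ^ 2 *
            (2 * (b : ℝ) ^ (4 * r * d) * r * d * (q * l)) := by rw [← hη2]; ring
        _ = (d : ℝ) ^ 2 * ((K : ℝ) ^ (2 * d + 1)) ^ 2 *
            (2 * (b : ℝ) ^ (4 * r * d) * r * d * (D * Real.log (l + 2))) := by rw [hql]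
        _ ≤ _ := by gcongr
    have h4 : (d : ℝ) ^ 2 * (y ^ (2 * d + 1)) ^ 2 *
          (2 * (b : ℝ) ^ (4 * r * d) * r * d * (D * (n * y))) * 3 = M0 * y ^ (4 * d + 3) := by
      rw [← hM0, ← pow_mul, show 4 * d + 3 = (2 * d + 1) * 2 + 1 by ring, pow_succ y]
      ring
    have h5 : M0 * y ^ (4 * d + 3) ≤ y ^ n * (1 / 4) := by
      have h6 : y ^ n = y * y ^ (4 * d + 3) := by
        rw [← hndef, show 4 * d + 4 = 4 * d + 3 + 1 by ring, pow_succ]
        ring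
      have h7 : 0 ≤ y ^ (4 * d + 3) := by positivity
      calc M0 * y ^ (4 * d + 3) ≤ (y * (1 / 4)) * y ^ (4 * d + 3) :=
            mul_le_mul_of_nonneg_right (by linarith) h7
        _ = y ^ n * (1 / 4) := by rw [h6]; ring
    have h6 : y ^ n ≤ 3 * l := by rw [hyn]; linarith
    have hX0 : 0 ≤ (d : ℝ) ^ 2 * ((K : ℝ) ^ (2 * d + 1)) ^ 2 * η2 := by positivity
    have hyn0 : 0 < y ^ n := by positivity
    rw [h1]
    have h7 : (d : ℝ) ^ 2 * ((K : ℝ) ^ (2 * d + 1)) ^ 2 * η2 * y ^ n ≤ 1 / 4 * y ^ n := by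
      calc (d : ℝ) ^ 2 * ((K : ℝ) ^ (2 * d + 1)) ^ 2 * η2 * y ^ n
          ≤ (d : ℝ) ^ 2 * ((K : ℝ) ^ (2 * d + 1)) ^ 2 * η2 * (3 * l) :=
            mul_le_mul_of_nonneg_left h6 hX0
        _ = (d : ℝ) ^ 2 * ((K : ℝ) ^ (2 * d + 1)) ^ 2 * η2 * l * 3 := by ring
        _ ≤ (d : ℝ) ^ 2 * (y ^ (2 * d + 1)) ^ 2 *
          (2 * (b : ℝ) ^ (4 * r * d) * r * d * (D * (n * y))) * 3 :=
            mul_le_mul_of_nonneg_right h3 (by norm_num)
        _ = M0 * y ^ (4 * d + 3) := h4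
        _ ≤ 1 / 4 * y ^ n := by rw [mul_comm (1 / 4 : ℝ)]; exact h5
    calc (d : ℝ) ^ 2 * ((K : ℝ) ^ (2 * d + 1)) ^ 2 * η2 ≤ 1 / 4 :=
          le_of_mul_le_mul_right h7 hyn0
      _ = (1 / 2) ^ 2 := by norm_num
  -- the layers
  obtain ⟨k0, rfl⟩ : ∃ k0, K = k0 + 1 := ⟨K - 1, by omega⟩
  have hlay' : (c l : ℝ) + ∑ k ∈ range k0, (A l 0 (k + 1) : ℝ) ≤
      a l + ∑ k ∈ range k0, ((s (k + 1) : ℝ) - 1) * c l := by
    have h := hlay l k0
    have h2 : ((c l + ∑ k ∈ range k0, A l 0 (k + 1) : ℕ) : ℝ) ≤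
        ((a l + ∑ k ∈ range k0, (s (k + 1) - 1) * c l : ℕ) : ℝ) := by exact_mod_cast h
    rw [Nat.cast_add, Nat.cast_add, Nat.cast_sum, Nat.cast_sum] at h2
    refine h2.trans (le_of_eq ?_)
    congr 1
    refine sum_congr rfl fun k _ => ?_
    rw [Nat.cast_mul, Nat.cast_sub (hs1 _), Nat.cast_one]
  have hgain : ∀ k ∈ range k0, ((s (k + 1) : ℝ) - 1) * c l + c l / 2 ≤ A l 0 (k + 1) := by
    intro k hk
    rw [mem_range] at hk
    have h1 := hdef (k + 1)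
    have h2 : d * (((k + 1 : ℕ) : ℝ) + 1) ^ (2 * d + 1) * (c l * √η2) ≤ c l / 2 := by
      have h3 : (((k + 1 : ℕ) : ℝ) + 1) ≤ ((k0 + 1 : ℕ) : ℝ) := by
        exact_mod_cast (by omega : k + 1 + 1 ≤ k0 + 1)
      have h4 : (((k + 1 : ℕ) : ℝ) + 1) ^ (2 * d + 1) ≤ ((k0 + 1 : ℕ) : ℝ) ^ (2 * d + 1) :=
        pow_le_pow_left₀ (by positivity) h3 _
      calc d * (((k + 1 : ℕ) : ℝ) + 1) ^ (2 * d + 1) * (c l * √η2)
          ≤ d * ((k0 + 1 : ℕ) : ℝ) ^ (2 * d + 1) * (c l * √η2) := by gcongr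
        _ = (d * ((k0 + 1 : ℕ) : ℝ) ^ (2 * d + 1) * √η2) * c l := by ring
        _ ≤ 1 / 2 * c l := mul_le_mul_of_nonneg_right hsmall hcp.le
        _ = c l / 2 := by ring
    have h3 := (abs_le.1 (h1.trans h2)).2
    linarith
  have hsum := sum_le_sum hgain
  rw [sum_add_distrib, sum_const, card_range, nsmul_eq_mul] at hsum
  push_cast at hyK
  have hfin : (c l : ℝ) + k0 * (c l / 2) ≤ a l := by linarith
  have hcy : (c l : ℝ) * y ≤ c l * (k0 + 1 + 1) := mul_le_mul_of_nonneg_left hyK.le hcp.le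
  have hcy2 : (c l : ℝ) * (k0 + 1 + 1) = 2 * (c l + k0 * (c l / 2)) := by ring
  linarith

end Pool.Agent.Helper47.PR
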