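import Mathlib

/-!
# The Koszul identity for idempotents
-/

open Finset Equiv

namespace Pool.Agent.Helper47.PR

section avg

variable {𝕜 : Type*} [Field 𝕜] [CharZero 𝕜] {R : Type*} [Ring R] [Algebra 𝕜 R] {G : Type*}
  [Group G] [Fintype G]

open Classical in
/-- the average over a subgroup -/
noncomputable def avg (𝕜 : Type*) [Field 𝕜] {R : Type*} [Ring R] [Algebra 𝕜 R] {G : Type*}
    [Group G] [Fintype G] (ρ : G →ₙ* R) (H : Subgroup G) : R :=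
  ((univ.filter (· ∈ H)).card : 𝕜)⁻¹ • ∑ g ∈ univ.filter (· ∈ H), ρ g

open Classical in
lemma card_ne (H : Subgroup G) : ((univ.filter (· ∈ H)).card : 𝕜) ≠ 0 := by
  have h : 0 < (univ.filter (· ∈ H)).card :=
    card_pos.2 ⟨1, mem_filter.2 ⟨mem_univ _, H.one_mem⟩⟩
  exact_mod_cast h.ne'

omit [CharZero 𝕜] in
lemma mul_avg (ρ : G →ₙ* R) {H : Subgroup G} {h : G} (hh : h ∈ H) :
    ρ h * avg 𝕜 ρ H = avg 𝕜 ρ H := by
  classical
  unfold avg
  rw [mul_smul_comm, mul_sum]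
  congr 1
  refine sum_bij (fun g _ => h * g) ?_ ?_ ?_ ?_
  · intro g hg
    rw [mem_filter] at hg ⊢
    exact ⟨mem_univ _, H.mul_mem hh hg.2⟩
  · intro g _ g' _ he
    exact mul_left_cancel he
  · intro g hg
    rw [mem_filter] at hg
    exact ⟨h⁻¹ * g, mem_filter.2 ⟨mem_univ _, H.mul_mem (H.inv_mem hh) hg.2⟩,
      mul_inv_cancel_left h g⟩
  · intro g _
    exact (map_mul ρ h g).symm

omit [CharZero 𝕜] in
lemma avg_mul (ρ : G →ₙ* R) {H : Subgroup G} {h : G} (hh : h ∈ H) :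
    avg 𝕜 ρ H * ρ h = avg 𝕜 ρ H := by
  classical
  unfold avg
  rw [smul_mul_assoc, sum_mul]
  congr 1
  refine sum_bij (fun g _ => g * h) ?_ ?_ ?_ ?_
  · intro g hg
    rw [mem_filter] at hg ⊢
    exact ⟨mem_univ _, H.mul_mem hg.2 hh⟩
  · intro g _ g' _ he
    exact mul_right_cancel he
  · intro g hg
    rw [mem_filter] at hg
    exact ⟨g * h⁻¹, mem_filter.2 ⟨mem_univ _, H.mul_mem hg.2 (H.inv_mem hh)⟩,
      inv_mul_cancel_right g h⟩
  · intro g _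
    exact (map_mul ρ g h).symm

lemma avg_mul_avg (ρ : G →ₙ* R) {K H : Subgroup G} (h : K ≤ H) :
    avg 𝕜 ρ K * avg 𝕜 ρ H = avg 𝕜 ρ H := by
  classical
  conv_lhs => rw [avg]
  rw [smul_mul_assoc, sum_mul, sum_congr rfl fun g hg => mul_avg ρ (h (mem_filter.1 hg).2),
    sum_const, ← Nat.cast_smul_eq_nsmul 𝕜, smul_smul, inv_mul_cancel₀ (card_ne K), one_smul]

lemma avg_mul_avg' (ρ : G →ₙ* R) {K H : Subgroup G} (h : K ≤ H) :
    avg 𝕜 ρ H * avg 𝕜 ρ K = avg 𝕜 ρ H := by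
  classical
  have e : avg 𝕜 ρ H * avg 𝕜 ρ K = ((univ.filter (· ∈ K)).card : 𝕜)⁻¹ •
      ∑ g ∈ univ.filter (· ∈ K), avg 𝕜 ρ H * ρ g := by
    conv_lhs => rw [avg.eq_def 𝕜 ρ K]
    rw [mul_smul_comm, mul_sum]
  rw [e, sum_congr rfl fun g hg => avg_mul ρ (h (mem_filter.1 hg).2),
    sum_const, ← Nat.cast_smul_eq_nsmul 𝕜, smul_smul, inv_mul_cancel₀ (card_ne K), one_smul]

omit [CharZero 𝕜] in
lemma avg_comm (ρ ρ' : G →ₙ* R) {H K : Subgroup G}
    (h : ∀ g ∈ H, ∀ g' ∈ K, ρ g * ρ' g' = ρ' g' * ρ g) :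
    avg 𝕜 ρ H * avg 𝕜 ρ' K = avg 𝕜 ρ' K * avg 𝕜 ρ H := by
  classical
  unfold avg
  rw [smul_mul_smul_comm, smul_mul_smul_comm, sum_mul_sum, sum_mul_sum, sum_comm, mul_comm]
  congr 1
  refine sum_congr rfl fun g' hg' => sum_congr rfl fun g hg => ?_
  exact h g (mem_filter.1 hg).2 g' (mem_filter.1 hg').2

/-- the decomposition into double cosets -/
lemma avg_double (ρ : G →ₙ* R) {H H' : Subgroup G} (h : H ≤ H') (τ : G)
    (hτ : ∀ g ∈ H', g ∉ H → ∃ h₁ ∈ H, ∃ h₂ ∈ H, g = h₁ * τ * h₂) (n m : ℕ)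
    (hn : Nat.card H = n) (hm : Nat.card H' = m) :
    (m : 𝕜) • avg 𝕜 ρ H' = (n : 𝕜) • avg 𝕜 ρ H +
      ((m : 𝕜) - n) • (avg 𝕜 ρ H * ρ τ * avg 𝕜 ρ H) := by
  classical
  have hn' : (univ.filter (· ∈ H)).card = n := by
    rw [← hn, Nat.card_eq_fintype_card, Fintype.card_subtype]
  have hm' : (univ.filter (· ∈ H')).card = m := by
    rw [← hm, Nat.card_eq_fintype_card, Fintype.card_subtype]
  have hm0 := card_ne (𝕜 := 𝕜) H'
  rw [hm'] at hm0
  have e1 : (m : 𝕜) • avg 𝕜 ρ H' = ∑ g ∈ univ.filter (· ∈ H'), ρ g := by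
    unfold avg
    rw [hm', smul_smul, mul_inv_cancel₀ hm0, one_smul]
  have e2 : (m : 𝕜) • avg 𝕜 ρ H' = ∑ g ∈ univ.filter (· ∈ H'),
      avg 𝕜 ρ H * ρ g * avg 𝕜 ρ H := by
    rw [← sum_mul, ← mul_sum, ← e1, mul_smul_comm, avg_mul_avg ρ h, smul_mul_assoc,
      avg_mul_avg' ρ h]
  have t1 : ∀ g ∈ (univ.filter (· ∈ H')).filter (· ∈ H), avg 𝕜 ρ H * ρ g * avg 𝕜 ρ H =
      avg 𝕜 ρ H := by
    intro g hg
    rw [avg_mul ρ (mem_filter.1 hg).2, avg_mul_avg ρ le_rfl]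
  have t2 : ∀ g ∈ (univ.filter (· ∈ H')).filter (· ∉ H), avg 𝕜 ρ H * ρ g * avg 𝕜 ρ H =
      avg 𝕜 ρ H * ρ τ * avg 𝕜 ρ H := by
    intro g hg
    obtain ⟨h₁, h1, h₂, h2, hg'⟩ := hτ g (mem_filter.1 (mem_filter.1 hg).1).2
      (mem_filter.1 hg).2
    rw [hg', map_mul, map_mul, ← mul_assoc, ← mul_assoc, avg_mul ρ h1, mul_assoc _ (ρ h₂),
      mul_avg ρ h2]
  rw [e2, ← sum_filter_add_sum_filter_not _ (· ∈ H)]
  congr 1
  · rw [sum_congr rfl t1, sum_const, ← Nat.cast_smul_eq_nsmul 𝕜]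
    congr 2
    rw [← hn', filter_filter]
    congr 1
    ext g
    simp only [mem_filter, mem_univ, true_and]
    exact ⟨fun hg => hg.2, fun hg => ⟨h hg, hg⟩⟩
  · rw [sum_congr rfl t2, sum_const, ← Nat.cast_smul_eq_nsmul 𝕜]
    congr 1
    have h3 : (univ.filter (· ∈ H')).card =
        ((univ.filter (· ∈ H')).filter (· ∈ H)).card +
          ((univ.filter (· ∈ H')).filter (· ∉ H)).card :=
      (card_filter_add_card_filter_not _).symm
    have h4 : ((univ.filter (· ∈ H')).filter (· ∈ H)).card = n := by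
      rw [← hn', filter_filter]
      congr 1
      ext g
      simp only [mem_filter, mem_univ, true_and]
      exact ⟨fun hg => hg.2, fun hg => ⟨h hg, hg⟩⟩
    rw [hm', h4] at h3
    rw [h3, Nat.cast_add, add_sub_cancel_left]

end avg

section perm

variable {k : ℕ}

/-- the permutations which fix the points `≥ j` -/
def lowP (k j : ℕ) : Subgroup (Perm (Fin k)) where
  carrier := {σ | ∀ i : Fin k, j ≤ i.val → σ i = i}
  mul_mem' := by
    intro σ τ hσ hτ i hi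
    rw [Perm.mul_apply, hτ i hi, hσ i hi]
  one_mem' := fun i _ => rfl
  inv_mem' := by
    intro σ hσ i hi
    rw [Perm.inv_eq_iff_eq]
    exact (hσ i hi).symm

/-- the permutations which fix the points `< j` -/
def highP (k j : ℕ) : Subgroup (Perm (Fin k)) where
  carrier := {σ | ∀ i : Fin k, i.val < j → σ i = i}
  mul_mem' := by
    intro σ τ hσ hτ i hi
    rw [Perm.mul_apply, hτ i hi, hσ i hi]
  one_mem' := fun i _ => rfl
  inv_mem' := by
    intro σ hσ i hi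
    rw [Perm.inv_eq_iff_eq]
    exact (hσ i hi).symm

lemma mem_lowP {j : ℕ} {σ : Perm (Fin k)} : σ ∈ lowP k j ↔ ∀ i : Fin k, j ≤ i.val → σ i = i :=
  Iff.rfl

lemma mem_highP {j : ℕ} {σ : Perm (Fin k)} : σ ∈ highP k j ↔ ∀ i : Fin k, i.val < j → σ i = i :=
  Iff.rfl

lemma card_lowP {j : ℕ} (hj : j ≤ k) : Nat.card (lowP k j) = j.factorial := by
  classical
  have e : Perm {i : Fin k // i.val < j} ≃ lowP k j :=
    (Perm.subtypeEquivSubtypePerm fun i : Fin k => i.val < j).trans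
      (Equiv.subtypeEquivRight fun σ => by
        rw [mem_lowP]
        exact forall_congr' fun i => by rw [not_lt])
  rw [← Nat.card_congr e, Nat.card_eq_fintype_card, Fintype.card_perm, Fintype.card_subtype]
  congr 1
  have h : (univ.filter fun i : Fin k => i.val < j).card = min k j := Fin.card_filter_val_lt
  rw [h]
  exact min_eq_right hj

lemma card_highP {j : ℕ} (hj : j ≤ k) : Nat.card (highP k j) = (k - j).factorial := by
  classical
  have e : Perm {i : Fin k // j ≤ i.val} ≃ highP k j :=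
    (Perm.subtypeEquivSubtypePerm fun i : Fin k => j ≤ i.val).trans
      (Equiv.subtypeEquivRight fun σ => by
        rw [mem_highP]
        exact forall_congr' fun i => by rw [not_le])
  rw [← Nat.card_congr e, Nat.card_eq_fintype_card, Fintype.card_perm, Fintype.card_subtype]
  congr 1
  have h1 := card_filter_add_card_filter_not (s := (univ : Finset (Fin k))) (fun i => i.val < j)
  have h2 : (univ.filter fun i : Fin k => i.val < j).card = min k j := Fin.card_filter_val_lt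
  have h3 : (univ.filter fun i : Fin k => ¬ i.val < j) = univ.filter fun i : Fin k => j ≤ i.val := by
    ext i
    simp only [mem_filter, mem_univ, true_and, not_lt]
  rw [h2, h3, card_univ, Fintype.card_fin, min_eq_right hj] at h1
  omega

lemma lowP_mono {j j' : ℕ} (h : j ≤ j') : lowP k j ≤ lowP k j' :=
  fun _ hσ i hi => hσ i (h.trans hi)

lemma highP_mono {j j' : ℕ} (h : j ≤ j') : highP k j' ≤ highP k j :=
  fun _ hσ i hi => hσ i (lt_of_lt_of_le hi h)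

/-- disjoint permutations commute -/
lemma low_high_comm {j : ℕ} {σ τ : Perm (Fin k)} (hσ : σ ∈ lowP k j) (hτ : τ ∈ highP k j) :
    σ * τ = τ * σ := by
  have hd : Perm.Disjoint σ τ := by
    intro i
    by_cases hi : i.val < j
    · exact Or.inr (hτ i hi)
    · exact Or.inl (hσ i (not_lt.1 hi))
  exact hd.commute.eq

/-- the double coset for the lower permutations -/
lemma low_double {j : ℕ} (hj : j + 1 < k) (g : Perm (Fin k)) (hg : g ∈ lowP k (j + 2))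
    (hg' : g ∉ lowP k (j + 1)) : ∃ h₁ ∈ lowP k (j + 1), ∃ h₂ ∈ lowP k (j + 1),
      g = h₁ * swap (⟨j, by omega⟩ : Fin k) ⟨j + 1, hj⟩ * h₂ := by
  obtain ⟨a, ha⟩ : ∃ a : Fin k, (⟨j, by omega⟩ : Fin k) = a := ⟨_, rfl⟩
  obtain ⟨b, hb⟩ : ∃ b : Fin k, (⟨j + 1, hj⟩ : Fin k) = b := ⟨_, rfl⟩
  have hav : a.val = j := by rw [← ha]
  have hbv : b.val = j + 1 := by rw [← hb]
  rw [ha, hb]
  -- `x` with `g x = b`
  obtain ⟨x, hx⟩ : ∃ x, g x = b := ⟨g⁻¹ b, by simp⟩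
  have hxb : x ≠ b := by
    rintro rfl
    refine hg' fun i hi => ?_
    by_cases hi2 : j + 2 ≤ i.val
    · exact hg i hi2
    · have : i = x := Fin.ext (by omega)
      rw [this, hx]
  have hxv : x.val < j + 1 := by
    by_contra h
    have h2 : j + 2 ≤ x.val := by
      have h3 : x.val ≠ b.val := fun h3 => hxb (Fin.ext h3)
      omega
    exact hxb ((hg x h2).symm.trans hx)
  have hh2 : swap x a ∈ lowP k (j + 1) := by
    intro i hi
    exact swap_apply_of_ne_of_ne (fun h => by rw [h] at hi; omega) (fun h => by rw [h] at hi; omega)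
  have hτ : swap a b ∈ lowP k (j + 2) := by
    intro i hi
    exact swap_apply_of_ne_of_ne (fun h => by rw [h] at hi; omega) (fun h => by rw [h] at hi; omega)
  refine ⟨g * swap x a * swap a b, ?_, swap x a, hh2, ?_⟩
  · intro i hi
    by_cases hi2 : j + 2 ≤ i.val
    · exact (lowP k (j + 2)).mul_mem ((lowP k (j + 2)).mul_mem hg (lowP_mono (by omega) hh2)) hτ i hi2
    · have : i = b := Fin.ext (by omega)
      rw [this, Perm.mul_apply, Perm.mul_apply, swap_apply_right, swap_apply_right, hx]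
  · rw [mul_assoc (g * swap x a), swap_mul_self, mul_one, mul_assoc, swap_mul_self, mul_one]

/-- the double coset for the upper permutations -/
lemma high_double {j : ℕ} (hj : j + 1 < k) (g : Perm (Fin k)) (hg : g ∈ highP k j)
    (hg' : g ∉ highP k (j + 1)) : ∃ h₁ ∈ highP k (j + 1), ∃ h₂ ∈ highP k (j + 1),
      g = h₁ * swap (⟨j, by omega⟩ : Fin k) ⟨j + 1, hj⟩ * h₂ := by
  obtain ⟨a, ha⟩ : ∃ a : Fin k, (⟨j, by omega⟩ : Fin k) = a := ⟨_, rfl⟩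
  obtain ⟨b, hb⟩ : ∃ b : Fin k, (⟨j + 1, hj⟩ : Fin k) = b := ⟨_, rfl⟩
  have hav : a.val = j := by rw [← ha]
  have hbv : b.val = j + 1 := by rw [← hb]
  rw [ha, hb]
  obtain ⟨x, hx⟩ : ∃ x, g x = a := ⟨g⁻¹ a, by simp⟩
  have hxa : x ≠ a := by
    rintro rfl
    refine hg' fun i hi => ?_
    by_cases hi2 : i.val < j
    · exact hg i hi2
    · have : i = x := Fin.ext (by omega)
      rw [this, hx]
  have hxv : j + 1 ≤ x.val := by
    by_contra h
    have h2 : x.val < j := by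
      have h3 : x.val ≠ a.val := fun h3 => hxa (Fin.ext h3)
      omega
    exact hxa ((hg x h2).symm.trans hx)
  have hh2 : swap x b ∈ highP k (j + 1) := by
    intro i hi
    exact swap_apply_of_ne_of_ne (fun h => by rw [h] at hi; omega) (fun h => by rw [h] at hi; omega)
  have hτ : swap a b ∈ highP k j := by
    intro i hi
    exact swap_apply_of_ne_of_ne (fun h => by rw [h] at hi; omega) (fun h => by rw [h] at hi; omega)
  refine ⟨g * swap x b * swap a b, ?_, swap x b, hh2, ?_⟩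
  · intro i hi
    by_cases hi2 : i.val < j
    · exact (highP k j).mul_mem ((highP k j).mul_mem hg (highP_mono (by omega) hh2)) hτ i hi2
    · have : i = a := Fin.ext (by omega)
      rw [this, Perm.mul_apply, Perm.mul_apply, swap_apply_left, swap_apply_right, hx]
  · rw [mul_assoc (g * swap x b), swap_mul_self, mul_one, mul_assoc, swap_mul_self, mul_one]

end perm

section koszul

variable {𝕜 : Type*} [Field 𝕜] [CharZero 𝕜] {R : Type*} [Ring R] [Algebra 𝕜 R] {k : ℕ}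

/-- the action of the permutations, twisted by the sign -/
def tw (ρ : Perm (Fin k) →ₙ* R) : Perm (Fin k) →ₙ* R where
  toFun σ := ((Perm.sign σ : ℤ) : R) * ρ σ
  map_mul' σ τ := by
    rw [map_mul, map_mul, Units.val_mul, Int.cast_mul, mul_assoc, mul_assoc,
      ← mul_assoc ((Perm.sign τ : ℤ) : R), ((Int.cast_commute _ (ρ σ)).eq), mul_assoc]

lemma tw_apply (ρ : Perm (Fin k) →ₙ* R) (σ : Perm (Fin k)) :
    tw ρ σ = ((Perm.sign σ : ℤ) : R) * ρ σ := rfl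

/-- the alternating idempotent in the first `j` factors times the symmetric idempotent in the
other factors -/
noncomputable def altSym (𝕜 : Type*) [Field 𝕜] {R : Type*} [Ring R] [Algebra 𝕜 R] {k : ℕ}
    (ρ : Perm (Fin k) →ₙ* R) (j : ℕ) : R :=
  avg 𝕜 (tw ρ) (lowP k j) * avg 𝕜 ρ (highP k j)

variable (ρ : Perm (Fin k) →ₙ* R)

omit [CharZero 𝕜] in
lemma alt_sym_comm {i j : ℕ} (h : i ≤ j) : avg 𝕜 (tw ρ) (lowP k i) * avg 𝕜 ρ (highP k j) =
    avg 𝕜 ρ (highP k j) * avg 𝕜 (tw ρ) (lowP k i) := by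
  refine avg_comm (tw ρ) ρ fun σ hσ τ hτ => ?_
  rw [tw_apply, mul_assoc, ← map_mul, low_high_comm (lowP_mono h hσ) hτ, map_mul, ← mul_assoc,
    (Int.cast_commute _ (ρ τ)).eq, mul_assoc]

lemma altSym_idem (j : ℕ) : altSym 𝕜 ρ j * altSym 𝕜 ρ j = altSym 𝕜 ρ j := by
  have h := alt_sym_comm (𝕜 := 𝕜) ρ (le_refl j)
  calc altSym 𝕜 ρ j * altSym 𝕜 ρ j =
      avg 𝕜 (tw ρ) (lowP k j) * (avg 𝕜 ρ (highP k j) * avg 𝕜 (tw ρ) (lowP k j)) *
        avg 𝕜 ρ (highP k j) := by simp only [altSym, mul_assoc]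
    _ = (avg 𝕜 (tw ρ) (lowP k j) * avg 𝕜 (tw ρ) (lowP k j)) *
        (avg 𝕜 ρ (highP k j) * avg 𝕜 ρ (highP k j)) := by rw [← h]; simp only [mul_assoc]
    _ = altSym 𝕜 ρ j := by rw [avg_mul_avg _ le_rfl, avg_mul_avg _ le_rfl]; rfl

/-- the alternating idempotents -/
lemma alt_step {j : ℕ} (hj : j + 1 < k) :
    ((j : 𝕜) + 2) • avg 𝕜 (tw ρ) (lowP k (j + 2)) = avg 𝕜 (tw ρ) (lowP k (j + 1)) -
      ((j : 𝕜) + 1) • (avg 𝕜 (tw ρ) (lowP k (j + 1)) *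
        ρ (swap (⟨j, by omega⟩ : Fin k) ⟨j + 1, hj⟩) * avg 𝕜 (tw ρ) (lowP k (j + 1))) := by
  have h := avg_double (𝕜 := 𝕜) (tw ρ) (lowP_mono (k := k) (by omega : j + 1 ≤ j + 2)) _
    (low_double hj) _ _ (card_lowP (k := k) (j := j + 1) (by omega))
    (card_lowP (k := k) (j := j + 2) (by omega))
  have hne : (⟨j, by omega⟩ : Fin k) ≠ ⟨j + 1, hj⟩ := by
    intro h
    have := congrArg Fin.val h
    simp at this
  rw [tw_apply, Perm.sign_swap hne, Nat.factorial_succ (j + 1)] at h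
  have hf : ((j + 1).factorial : 𝕜) ≠ 0 := by exact_mod_cast (Nat.factorial_pos _).ne'
  have h2 := congrArg (fun z => ((j + 1).factorial : 𝕜)⁻¹ • z) h
  simp only [smul_add, smul_smul, Nat.cast_mul] at h2
  have e1 : ((j + 1).factorial : 𝕜)⁻¹ * (((j + 1 + 1 : ℕ) : 𝕜) * ((j + 1).factorial : 𝕜)) =
      (j : 𝕜) + 2 := by
    rw [mul_comm, mul_assoc, mul_inv_cancel₀ hf, mul_one]
    push_cast
    ring
  have e2 : ((j + 1).factorial : 𝕜)⁻¹ * (((j + 1 + 1 : ℕ) : 𝕜) * ((j + 1).factorial : 𝕜) -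
      ((j + 1).factorial : 𝕜)) = (j : 𝕜) + 1 := by
    rw [mul_sub, e1, inv_mul_cancel₀ hf]
    ring
  rw [e1, e2, inv_mul_cancel₀ hf, one_smul] at h2
  rw [h2, sub_eq_add_neg, ← smul_neg]
  congr 2
  simp

/-- the symmetric idempotents -/
lemma sym_step {j : ℕ} (hj : j + 1 < k) :
    ((k : 𝕜) - j) • avg 𝕜 ρ (highP k j) = avg 𝕜 ρ (highP k (j + 1)) +
      ((k : 𝕜) - j - 1) • (avg 𝕜 ρ (highP k (j + 1)) *
        ρ (swap (⟨j, by omega⟩ : Fin k) ⟨j + 1, hj⟩) * avg 𝕜 ρ (highP k (j + 1))) := by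
  have h := avg_double (𝕜 := 𝕜) ρ (highP_mono (k := k) (by omega : j ≤ j + 1)) _
    (high_double hj) _ _ (card_highP (k := k) (j := j + 1) (by omega))
    (card_highP (k := k) (j := j) (by omega))
  obtain ⟨n, rfl⟩ : ∃ n, k = j + 1 + n := ⟨k - (j + 1), by omega⟩
  have e0 : j + 1 + n - j = n + 1 := by omega
  have e0' : j + 1 + n - (j + 1) = n := by omega
  rw [e0, e0', Nat.factorial_succ n] at h
  have hf : (n.factorial : 𝕜) ≠ 0 := by exact_mod_cast (Nat.factorial_pos _).ne'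
  have h2 := congrArg (fun z => (n.factorial : 𝕜)⁻¹ • z) h
  simp only [smul_add, smul_smul, Nat.cast_mul] at h2
  have e1 : (n.factorial : 𝕜)⁻¹ * (((n + 1 : ℕ) : 𝕜) * (n.factorial : 𝕜)) = (n : 𝕜) + 1 := by
    rw [mul_comm, mul_assoc, mul_inv_cancel₀ hf, mul_one]
    push_cast
    ring
  have e2 : (n.factorial : 𝕜)⁻¹ * (((n + 1 : ℕ) : 𝕜) * (n.factorial : 𝕜) -
      (n.factorial : 𝕜)) = (n : 𝕜) := by
    rw [mul_sub, e1, inv_mul_cancel₀ hf]
    ring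
  rw [e1, e2, inv_mul_cancel₀ hf, one_smul] at h2
  have e3 : ((j + 1 + n : ℕ) : 𝕜) - j = n + 1 := by push_cast; ring
  have e4 : ((j + 1 + n : ℕ) : 𝕜) - j - 1 = n := by push_cast; ring
  rw [e4, e3]
  exact h2

/-- `e_{j+1} e_j e_{j+1}` -/
lemma altSym_down {j : ℕ} (hj : j + 1 < k) :
    ((k : 𝕜) - j) • (altSym 𝕜 ρ (j + 1) * altSym 𝕜 ρ j * altSym 𝕜 ρ (j + 1)) =
      altSym 𝕜 ρ (j + 1) + ((k : 𝕜) - j - 1) • (altSym 𝕜 ρ (j + 1) *
        ρ (swap (⟨j, by omega⟩ : Fin k) ⟨j + 1, hj⟩) * altSym 𝕜 ρ (j + 1)) := by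
  have hc := alt_sym_comm (𝕜 := 𝕜) ρ (le_refl (j + 1))
  have haa := avg_mul_avg' (𝕜 := 𝕜) (tw ρ) (lowP_mono (k := k) (Nat.le_succ j))
  have hss := avg_mul_avg (𝕜 := 𝕜) ρ (highP_mono (k := k) (Nat.le_succ j))
  have hst := sym_step (𝕜 := 𝕜) ρ hj
  have ha2 := avg_mul_avg (𝕜 := 𝕜) (tw ρ) (le_refl (lowP k (j + 1)))
  unfold altSym
  simp only [Nat.succ_eq_add_one] at haa hss
  set a := avg 𝕜 (tw ρ) (lowP k (j + 1))
  set s := avg 𝕜 ρ (highP k (j + 1))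
  set a0 := avg 𝕜 (tw ρ) (lowP k j)
  set s0 := avg 𝕜 ρ (highP k j)
  set t := ρ (swap (⟨j, by omega⟩ : Fin k) ⟨j + 1, hj⟩)
  have h1 : a * s * (a0 * s0) * (a * s) = a * s0 * a := by
    calc a * s * (a0 * s0) * (a * s) = s * a * (a0 * s0) * (s * a) := by rw [hc]
      _ = s * (a * a0) * s0 * (s * a) := by simp only [mul_assoc]
      _ = (s * a) * s0 * (s * a) := by rw [haa]
      _ = (a * s) * s0 * (a * s) := by rw [hc]
      _ = a * (s * s0) * (s * a) := by rw [← hc]; simp only [mul_assoc]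
      _ = a * (s0 * s) * a := by rw [hss]; simp only [mul_assoc]
      _ = a * s0 * a := by
        rw [avg_mul_avg' (𝕜 := 𝕜) ρ (highP_mono (k := k) (Nat.le_succ j))]
  rw [h1, ← smul_mul_assoc, ← mul_smul_comm, hst, mul_add, add_mul, mul_smul_comm,
    smul_mul_assoc]
  congr 1
  · rw [mul_assoc, ← hc, ← mul_assoc, ha2]
  · congr 1
    calc a * (s * t * s) * a = (a * s) * t * (s * a) := by simp only [mul_assoc]
      _ = (a * s) * t * (a * s) := by rw [hc]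

/-- `e_{j+1} e_{j+2} e_{j+1}` -/
lemma altSym_up {j : ℕ} (hj : j + 1 < k) :
    ((j : 𝕜) + 2) • (altSym 𝕜 ρ (j + 1) * altSym 𝕜 ρ (j + 2) * altSym 𝕜 ρ (j + 1)) =
      altSym 𝕜 ρ (j + 1) - ((j : 𝕜) + 1) • (altSym 𝕜 ρ (j + 1) *
        ρ (swap (⟨j, by omega⟩ : Fin k) ⟨j + 1, hj⟩) * altSym 𝕜 ρ (j + 1)) := by
  have hc := alt_sym_comm (𝕜 := 𝕜) ρ (le_refl (j + 1))
  have hc2 := alt_sym_comm (𝕜 := 𝕜) ρ (show j + 1 ≤ j + 2 by omega)
  have haa := avg_mul_avg (𝕜 := 𝕜) (tw ρ) (lowP_mono (k := k) (show j + 1 ≤ j + 2 by omega))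
  have haa' := avg_mul_avg' (𝕜 := 𝕜) (tw ρ) (lowP_mono (k := k) (show j + 1 ≤ j + 2 by omega))
  have hss := avg_mul_avg (𝕜 := 𝕜) ρ (highP_mono (k := k) (show j + 1 ≤ j + 2 by omega))
  have hst := alt_step (𝕜 := 𝕜) ρ hj
  have hs2 := avg_mul_avg (𝕜 := 𝕜) ρ (le_refl (highP k (j + 1)))
  unfold altSym
  set a := avg 𝕜 (tw ρ) (lowP k (j + 1))
  set s := avg 𝕜 ρ (highP k (j + 1))
  set a2 := avg 𝕜 (tw ρ) (lowP k (j + 2))
  set s2 := avg 𝕜 ρ (highP k (j + 2))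
  set t := ρ (swap (⟨j, by omega⟩ : Fin k) ⟨j + 1, hj⟩)
  have h1 : a * s * (a2 * s2) * (a * s) = s * a2 * s := by
    calc a * s * (a2 * s2) * (a * s) = s * a * (a2 * s2) * (a * s) := by rw [hc]
      _ = s * (a * a2) * (s2 * a) * s := by simp only [mul_assoc]
      _ = s * a2 * (a * s2) * s := by rw [haa, hc2]
      _ = s * (a2 * a) * (s2 * s) := by simp only [mul_assoc]
      _ = s * a2 * s := by rw [haa', hss]
  rw [h1, ← smul_mul_assoc, ← mul_smul_comm, hst, mul_sub, sub_mul, mul_smul_comm,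
    smul_mul_assoc]
  congr 1
  · rw [← hc, mul_assoc, hs2]
  · congr 1
    calc s * (a * t * a) * s = (s * a) * t * (a * s) := by simp only [mul_assoc]
      _ = (a * s) * t * (a * s) := by rw [hc]

/-- alternating and symmetric -/
lemma sym_alt_zero {j : ℕ} (hj : j + 1 < k) :
    avg 𝕜 ρ (highP k j) * avg 𝕜 (tw ρ) (lowP k (j + 2)) = 0 ∧
      avg 𝕜 (tw ρ) (lowP k (j + 2)) * avg 𝕜 ρ (highP k j) = 0 := by
  obtain ⟨a, ha⟩ : ∃ a : Fin k, (⟨j, by omega⟩ : Fin k) = a := ⟨_, rfl⟩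
  obtain ⟨b, hb⟩ : ∃ b : Fin k, (⟨j + 1, hj⟩ : Fin k) = b := ⟨_, rfl⟩
  have hav : a.val = j := by rw [← ha]
  have hbv : b.val = j + 1 := by rw [← hb]
  have hab : a ≠ b := fun h => by
    have := congrArg Fin.val h
    omega
  have h1 : swap a b ∈ highP k j := by
    intro i hi
    exact swap_apply_of_ne_of_ne (fun h => by rw [h] at hi; omega) (fun h => by rw [h] at hi; omega)
  have h2 : swap a b ∈ lowP k (j + 2) := by
    intro i hi
    exact swap_apply_of_ne_of_ne (fun h => by rw [h] at hi; omega) (fun h => by rw [h] at hi; omega)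
  have htw : tw ρ (swap a b) = -ρ (swap a b) := by
    rw [tw_apply, Perm.sign_swap hab]
    simp
  have h3 := mul_avg (𝕜 := 𝕜) (tw ρ) h2
  have h4 := avg_mul (𝕜 := 𝕜) (tw ρ) h2
  rw [htw] at h3 h4
  have h5 := avg_mul (𝕜 := 𝕜) ρ h1
  have h6 := mul_avg (𝕜 := 𝕜) ρ h1
  have hz : ∀ x : R, x = -x → x = 0 := by
    intro x hx
    have h7 : (2 : 𝕜) • x = 0 := by
      rw [two_smul]
      nth_rewrite 2 [hx]
      exact add_neg_cancel x
    exact (smul_eq_zero.1 h7).resolve_left two_ne_zero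
  constructor
  · refine hz _ ?_
    conv_lhs => rw [← h5, mul_assoc, ← neg_neg (ρ (swap a b) * _), ← neg_mul, h3, mul_neg]
  · refine hz _ ?_
    conv_lhs => rw [← h6, ← mul_assoc, ← neg_neg (_ * ρ (swap a b)), ← mul_neg, h4, neg_mul]

lemma avg_of_trivial {G : Type*} [Group G] [Fintype G] (ρ : G →ₙ* R) {H : Subgroup G}
    (h : ∀ g ∈ H, g = 1) : avg 𝕜 ρ H = ρ 1 := by
  classical
  have h1 : univ.filter (· ∈ H) = {1} := by
    ext g
    simp only [mem_filter, mem_univ, true_and, mem_singleton]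
    exact ⟨h g, fun hg => by rw [hg]; exact H.one_mem⟩
  unfold avg
  rw [h1, card_singleton, sum_singleton, Nat.cast_one, inv_one, one_smul]

lemma lowP_zero : ∀ g ∈ lowP k 0, g = 1 := fun _ hg => Perm.ext fun i => hg i (Nat.zero_le _)

lemma lowP_one : ∀ g ∈ lowP k 1, g = 1 := by
  intro g hg
  refine Perm.ext fun i => ?_
  rw [Perm.one_apply]
  by_cases hi : 1 ≤ i.val
  · exact hg i hi
  · by_contra hne
    have h1 : 1 ≤ (g i).val := by
      by_contra h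
      exact hne (Fin.ext (by omega))
    exact hne (g.injective (hg (g i) h1))

lemma highP_last : ∀ g ∈ highP k k, g = 1 := fun _ hg => Perm.ext fun i => hg i i.isLt

lemma highP_pred {j : ℕ} (hj : k = j + 1) : ∀ g ∈ highP k j, g = 1 := by
  intro g hg
  refine Perm.ext fun i => ?_
  rw [Perm.one_apply]
  by_cases hi : i.val < j
  · exact hg i hi
  · by_contra hne
    have h1 : (g i).val < j := by
      by_contra h
      have h2 := (g i).isLt
      have h3 := i.isLt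
      exact hne (Fin.ext (by omega))
    exact hne (g.injective (hg (g i) h1))

lemma tw_one : tw ρ 1 = ρ 1 := by
  rw [tw_apply, map_one]
  simp

lemma ortho {j : ℕ} (hj : j + 1 < k) :
    altSym 𝕜 ρ j * altSym 𝕜 ρ (j + 1) * altSym 𝕜 ρ (j + 2) = 0 ∧
      altSym 𝕜 ρ (j + 2) * altSym 𝕜 ρ (j + 1) * altSym 𝕜 ρ j = 0 := by
  have hz := sym_alt_zero (𝕜 := 𝕜) ρ hj
  have c11 := alt_sym_comm (𝕜 := 𝕜) ρ (le_refl (j + 1))
  have c12 := alt_sym_comm (𝕜 := 𝕜) ρ (show j + 1 ≤ j + 2 by omega)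
  have c01 := alt_sym_comm (𝕜 := 𝕜) ρ (show j ≤ j + 1 by omega)
  have c02 := alt_sym_comm (𝕜 := 𝕜) ρ (show j ≤ j + 2 by omega)
  have a12 := avg_mul_avg (𝕜 := 𝕜) (tw ρ) (lowP_mono (k := k) (show j + 1 ≤ j + 2 by omega))
  have a21 := avg_mul_avg' (𝕜 := 𝕜) (tw ρ) (lowP_mono (k := k) (show j + 1 ≤ j + 2 by omega))
  have a20 := avg_mul_avg' (𝕜 := 𝕜) (tw ρ) (lowP_mono (k := k) (show j ≤ j + 2 by omega))
  have s01 := avg_mul_avg' (𝕜 := 𝕜) ρ (highP_mono (k := k) (show j ≤ j + 1 by omega))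
  have s10 := avg_mul_avg (𝕜 := 𝕜) ρ (highP_mono (k := k) (show j ≤ j + 1 by omega))
  have s20 := avg_mul_avg (𝕜 := 𝕜) ρ (highP_mono (k := k) (show j ≤ j + 2 by omega))
  unfold altSym
  set a0 := avg 𝕜 (tw ρ) (lowP k j)
  set a1 := avg 𝕜 (tw ρ) (lowP k (j + 1))
  set a2 := avg 𝕜 (tw ρ) (lowP k (j + 2))
  set s0 := avg 𝕜 ρ (highP k j)
  set s1 := avg 𝕜 ρ (highP k (j + 1))
  set s2 := avg 𝕜 ρ (highP k (j + 2))
  constructor
  · calc a0 * s0 * (a1 * s1) * (a2 * s2) = a0 * s0 * (s1 * a1) * (a2 * s2) := by rw [c11]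
      _ = a0 * (s0 * s1) * (a1 * a2) * s2 := by simp only [mul_assoc]
      _ = a0 * (s0 * a2) * s2 := by rw [s01, a12]; simp only [mul_assoc]
      _ = 0 := by rw [hz.1, mul_zero, zero_mul]
  · calc a2 * s2 * (a1 * s1) * (a0 * s0) = a2 * (s2 * a1) * (s1 * a0) * s0 := by
          simp only [mul_assoc]
      _ = a2 * (a1 * s2) * (a0 * s1) * s0 := by rw [c12, c01]
      _ = (a2 * a1) * (s2 * a0) * (s1 * s0) := by simp only [mul_assoc]
      _ = a2 * (a0 * s2) * s0 := by rw [a21, s10, c02]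
      _ = (a2 * a0) * (s2 * s0) := by simp only [mul_assoc]
      _ = 0 := by rw [a20, s20, hz.2]

/-- the coefficients -/
noncomputable def coef (𝕜 : Type*) [Field 𝕜] (k j : ℕ) : 𝕜 := ((j : 𝕜) + 1) * ((k : 𝕜) - j) / k

/-- the part of `e_j` which comes from `e_{j-1}` -/
noncomputable def partP (𝕜 : Type*) [Field 𝕜] {R : Type*} [Ring R] [Algebra 𝕜 R] {k : ℕ}
    (ρ : Perm (Fin k) →ₙ* R) : ℕ → R
  | 0 => 0
  | j + 1 => coef 𝕜 k j • (altSym 𝕜 ρ (j + 1) * altSym 𝕜 ρ j * altSym 𝕜 ρ (j + 1))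

/-- the part of `e_j` which comes from `e_{j+1}` -/
noncomputable def partQ (𝕜 : Type*) [Field 𝕜] {R : Type*} [Ring R] [Algebra 𝕜 R] {k : ℕ}
    (ρ : Perm (Fin k) →ₙ* R) (j : ℕ) : R :=
  coef 𝕜 k j • (altSym 𝕜 ρ j * altSym 𝕜 ρ (j + 1) * altSym 𝕜 ρ j)

lemma coef_last (k : ℕ) : coef 𝕜 k k = 0 := by
  unfold coef
  rw [sub_self, mul_zero, zero_div]

lemma partQ_last : partQ 𝕜 ρ k = 0 := by
  unfold partQ
  rw [coef_last, zero_smul]

lemma add_parts (hk : 1 ≤ k) {j : ℕ} (hj : j ≤ k) :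
    altSym 𝕜 ρ j = partP 𝕜 ρ j + partQ 𝕜 ρ j := by
  have hk0 : (k : 𝕜) ≠ 0 := by exact_mod_cast (by omega : k ≠ 0)
  rcases Nat.eq_zero_or_pos j with rfl | hj0
  · have h0 : coef 𝕜 k 0 = 1 := by
      unfold coef
      rw [Nat.cast_zero, zero_add, sub_zero, one_mul, div_self hk0]
    have e0 : altSym 𝕜 ρ 0 = avg 𝕜 ρ (highP k 0) := by
      unfold altSym
      rw [avg_of_trivial (𝕜 := 𝕜) (tw ρ) lowP_zero, tw_one, mul_avg ρ (highP k 0).one_mem]
    have e1 : altSym 𝕜 ρ 1 = avg 𝕜 ρ (highP k 1) := by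
      unfold altSym
      rw [avg_of_trivial (𝕜 := 𝕜) (tw ρ) lowP_one, tw_one, mul_avg ρ (highP k 1).one_mem]
    unfold partQ partP
    rw [h0, one_smul, zero_add, zero_add, e0, e1,
      avg_mul_avg' ρ (highP_mono (k := k) (Nat.zero_le 1)), avg_mul_avg ρ le_rfl]
  obtain ⟨i, rfl⟩ := Nat.exists_eq_add_of_le' hj0
  by_cases hlt : i + 1 < k
  · have hd := altSym_down (𝕜 := 𝕜) ρ hlt
    have hu := altSym_up (𝕜 := 𝕜) ρ hlt
    have hc0 : coef 𝕜 k i = (k : 𝕜)⁻¹ * ((i : 𝕜) + 1) * ((k : 𝕜) - i) := by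
      unfold coef
      rw [div_eq_mul_inv]
      ring
    have hc1 : coef 𝕜 k (i + 1) = (k : 𝕜)⁻¹ * ((k : 𝕜) - i - 1) * ((i : 𝕜) + 2) := by
      unfold coef
      rw [div_eq_mul_inv]
      push_cast
      ring
    change altSym 𝕜 ρ (i + 1) =
      coef 𝕜 k i • (altSym 𝕜 ρ (i + 1) * altSym 𝕜 ρ i * altSym 𝕜 ρ (i + 1)) +
      coef 𝕜 k (i + 1) • (altSym 𝕜 ρ (i + 1) * altSym 𝕜 ρ (i + 2) * altSym 𝕜 ρ (i + 1))
    rw [hc0, hc1, mul_smul _ ((k : 𝕜) - i), hd, mul_smul _ ((i : 𝕜) + 2), hu]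
    set y := altSym 𝕜 ρ (i + 1) * ρ (swap (⟨i, by omega⟩ : Fin k) ⟨i + 1, hlt⟩) *
      altSym 𝕜 ρ (i + 1)
    set e := altSym 𝕜 ρ (i + 1)
    have h1 : ((k : 𝕜)⁻¹ * ((i : 𝕜) + 1)) • (e + ((k : 𝕜) - i - 1) • y) +
        ((k : 𝕜)⁻¹ * ((k : 𝕜) - i - 1)) • (e - ((i : 𝕜) + 1) • y) = ((k : 𝕜)⁻¹ * k) • e := by
      module
    rw [h1, inv_mul_cancel₀ hk0, one_smul]
  · obtain rfl : k = i + 1 := by omega
    have h0 : coef 𝕜 (i + 1) i = 1 := by
      unfold coef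
      have e : ((i + 1 : ℕ) : 𝕜) - i = 1 := by push_cast; ring
      rw [e, mul_one, Nat.cast_add, Nat.cast_one, div_self (by exact_mod_cast hk0)]
    have e0 : altSym 𝕜 ρ (i + 1) = avg 𝕜 (tw ρ) (lowP (i + 1) (i + 1)) := by
      unfold altSym
      rw [avg_of_trivial (𝕜 := 𝕜) ρ highP_last, ← tw_one, avg_mul (tw ρ) (Subgroup.one_mem _)]
    have e1 : altSym 𝕜 ρ i = avg 𝕜 (tw ρ) (lowP (i + 1) i) := by
      unfold altSym
      rw [avg_of_trivial (𝕜 := 𝕜) ρ (highP_pred rfl), ← tw_one,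
        avg_mul (tw ρ) (Subgroup.one_mem _)]
    rw [partQ_last, add_zero]
    change altSym 𝕜 ρ (i + 1) =
      coef 𝕜 (i + 1) i • (altSym 𝕜 ρ (i + 1) * altSym 𝕜 ρ i * altSym 𝕜 ρ (i + 1))
    rw [h0, one_smul, e0, e1, avg_mul_avg' (tw ρ) (lowP_mono (Nat.le_succ i)),
      avg_mul_avg (tw ρ) le_rfl]

lemma parts_ortho {j : ℕ} (hj : j ≤ k) :
    partP 𝕜 ρ j * partQ 𝕜 ρ j = 0 ∧ partQ 𝕜 ρ j * partP 𝕜 ρ j = 0 := by
  rcases Nat.eq_zero_or_pos j with rfl | hj0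
  · exact ⟨zero_mul _, mul_zero _⟩
  obtain ⟨i, rfl⟩ := Nat.exists_eq_add_of_le' hj0
  by_cases hlt : i + 1 < k
  · obtain ⟨h1, h2⟩ := ortho (𝕜 := 𝕜) ρ hlt
    have he := altSym_idem (𝕜 := 𝕜) ρ (i + 1)
    unfold partQ
    change (coef 𝕜 k i • (altSym 𝕜 ρ (i + 1) * altSym 𝕜 ρ i * altSym 𝕜 ρ (i + 1))) *
        (coef 𝕜 k (i + 1) • (altSym 𝕜 ρ (i + 1) * altSym 𝕜 ρ (i + 2) * altSym 𝕜 ρ (i + 1))) = 0 ∧
      (coef 𝕜 k (i + 1) • (altSym 𝕜 ρ (i + 1) * altSym 𝕜 ρ (i + 2) * altSym 𝕜 ρ (i + 1))) *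
        (coef 𝕜 k i • (altSym 𝕜 ρ (i + 1) * altSym 𝕜 ρ i * altSym 𝕜 ρ (i + 1))) = 0
    set e0 := altSym 𝕜 ρ i
    set e1 := altSym 𝕜 ρ (i + 1)
    set e2 := altSym 𝕜 ρ (i + 2)
    have h3 : e1 * e0 * e1 * (e1 * e2 * e1) = 0 := by
      calc e1 * e0 * e1 * (e1 * e2 * e1) = e1 * e0 * (e1 * e1) * e2 * e1 := by
            simp only [mul_assoc]
        _ = e1 * (e0 * e1 * e2) * e1 := by rw [he]; simp only [mul_assoc]
        _ = 0 := by rw [h1, mul_zero, zero_mul]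
    have h4 : e1 * e2 * e1 * (e1 * e0 * e1) = 0 := by
      calc e1 * e2 * e1 * (e1 * e0 * e1) = e1 * e2 * (e1 * e1) * e0 * e1 := by
            simp only [mul_assoc]
        _ = e1 * (e2 * e1 * e0) * e1 := by rw [he]; simp only [mul_assoc]
        _ = 0 := by rw [h2, mul_zero, zero_mul]
    rw [smul_mul_smul_comm, smul_mul_smul_comm, h3, h4, smul_zero, smul_zero]
    exact ⟨rfl, rfl⟩
  · obtain rfl : k = i + 1 := by omega
    rw [partQ_last, mul_zero, zero_mul]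
    exact ⟨rfl, rfl⟩

lemma partP_mul (j : ℕ) : partP 𝕜 ρ j * altSym 𝕜 ρ j = partP 𝕜 ρ j := by
  cases j with
  | zero => exact zero_mul _
  | succ j =>
    change (coef 𝕜 k j • (altSym 𝕜 ρ (j + 1) * altSym 𝕜 ρ j * altSym 𝕜 ρ (j + 1))) *
      altSym 𝕜 ρ (j + 1) = coef 𝕜 k j • (altSym 𝕜 ρ (j + 1) * altSym 𝕜 ρ j * altSym 𝕜 ρ (j + 1))
    rw [smul_mul_assoc, mul_assoc _ _ (altSym 𝕜 ρ (j + 1)), altSym_idem]

lemma partQ_mul (j : ℕ) : partQ 𝕜 ρ j * altSym 𝕜 ρ j = partQ 𝕜 ρ j := by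
  unfold partQ
  rw [smul_mul_assoc, mul_assoc _ _ (altSym 𝕜 ρ j), altSym_idem]

lemma partP_idem (hk : 1 ≤ k) {j : ℕ} (hj : j ≤ k) :
    partP 𝕜 ρ j * partP 𝕜 ρ j = partP 𝕜 ρ j := by
  have h1 := partP_mul (𝕜 := 𝕜) ρ j
  rw [add_parts ρ hk hj, mul_add, (parts_ortho ρ hj).1, add_zero] at h1
  exact h1

lemma partQ_idem (hk : 1 ≤ k) {j : ℕ} (hj : j ≤ k) :
    partQ 𝕜 ρ j * partQ 𝕜 ρ j = partQ 𝕜 ρ j := by
  have h1 := partQ_mul (𝕜 := 𝕜) ρ j
  rw [add_parts ρ hk hj, mul_add, (parts_ortho ρ hj).2, zero_add] at h1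
  exact h1

section mem

variable {S : Submodule 𝕜 R} (hS : ∀ u ∈ S, ∀ v ∈ S, u * v ∈ S) (hρ : ∀ σ, ρ σ ∈ S)

include hρ in
omit [CharZero 𝕜] in
lemma avg_mem (H : Subgroup (Perm (Fin k))) : avg 𝕜 ρ H ∈ S :=
  S.smul_mem _ (S.sum_mem fun _ _ => hρ _)

include hρ in
omit [CharZero 𝕜] in
lemma tw_mem (σ : Perm (Fin k)) : tw ρ σ ∈ S := by
  rw [tw_apply, ← zsmul_eq_mul]
  exact S.toAddSubgroup.zsmul_mem (hρ σ) _

include hS hρ in
omit [CharZero 𝕜] in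
lemma altSym_mem (j : ℕ) : altSym 𝕜 ρ j ∈ S :=
  hS _ (avg_mem (tw ρ) (tw_mem ρ hρ) _) _ (avg_mem ρ hρ _)

end mem

/-- **The Koszul identity.** Let `ρ` be an action of the permutations of `k` points (`ρ 1` may be an
idempotent) and let `F` be an additive invariant of idempotents. Then the alternating sum of the
values of `F` at the idempotents `alt_j ⊗ sym_{k-j}` is zero. -/
theorem koszul (hk : 1 ≤ k) (S : Submodule 𝕜 R) (hS : ∀ u ∈ S, ∀ v ∈ S, u * v ∈ S)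
    (hρ : ∀ σ, ρ σ ∈ S) (F : R → ℤ)
    (hF1 : ∀ p ∈ S, ∀ q ∈ S, p * p = p → q * q = q → p * q = 0 → q * p = 0 →
      F (p + q) = F p + F q)
    (hF2 : ∀ u ∈ S, ∀ v ∈ S, (u * v) * (u * v) = u * v → (v * u) * (v * u) = v * u →
      F (u * v) = F (v * u)) :
    ∑ j ∈ range (k + 1), (-1) ^ j * F (altSym 𝕜 ρ j) = 0 := by
  have he := altSym_mem (𝕜 := 𝕜) ρ hS hρ
  have hP : ∀ j, partP 𝕜 ρ j ∈ S := by
    intro j
    cases j with
    | zero => exact S.zero_mem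
    | succ j => exact S.smul_mem _ (hS _ (hS _ (he _) _ (he _)) _ (he _))
  have hQ : ∀ j, partQ 𝕜 ρ j ∈ S := fun j => S.smul_mem _ (hS _ (hS _ (he _) _ (he _)) _ (he _))
  have hF0 : F 0 = 0 := by
    have h := hF1 0 S.zero_mem 0 S.zero_mem (zero_mul _) (zero_mul _) (zero_mul _) (zero_mul _)
    rw [add_zero] at h
    omega
  have hadd : ∀ j ≤ k, F (altSym 𝕜 ρ j) = F (partP 𝕜 ρ j) + F (partQ 𝕜 ρ j) := by
    intro j hj
    rw [add_parts ρ hk hj]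
    exact hF1 _ (hP j) _ (hQ j) (partP_idem ρ hk hj) (partQ_idem ρ hk hj) (parts_ortho ρ hj).1
      (parts_ortho ρ hj).2
  have hstep : ∀ j < k, F (partQ 𝕜 ρ j) = F (partP 𝕜 ρ (j + 1)) := by
    intro j hj
    have e1 : (coef 𝕜 k j • (altSym 𝕜 ρ j * altSym 𝕜 ρ (j + 1))) *
        (altSym 𝕜 ρ (j + 1) * altSym 𝕜 ρ j) = partQ 𝕜 ρ j := by
      unfold partQ
      rw [smul_mul_assoc]
      congr 1
      calc altSym 𝕜 ρ j * altSym 𝕜 ρ (j + 1) * (altSym 𝕜 ρ (j + 1) * altSym 𝕜 ρ j)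
          = altSym 𝕜 ρ j * (altSym 𝕜 ρ (j + 1) * altSym 𝕜 ρ (j + 1)) * altSym 𝕜 ρ j := by
            simp only [mul_assoc]
        _ = _ := by rw [altSym_idem]
    have e2 : (altSym 𝕜 ρ (j + 1) * altSym 𝕜 ρ j) *
        (coef 𝕜 k j • (altSym 𝕜 ρ j * altSym 𝕜 ρ (j + 1))) = partP 𝕜 ρ (j + 1) := by
      change _ = coef 𝕜 k j • (altSym 𝕜 ρ (j + 1) * altSym 𝕜 ρ j * altSym 𝕜 ρ (j + 1))
      rw [mul_smul_comm]
      congr 1
      calc altSym 𝕜 ρ (j + 1) * altSym 𝕜 ρ j * (altSym 𝕜 ρ j * altSym 𝕜 ρ (j + 1))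
          = altSym 𝕜 ρ (j + 1) * (altSym 𝕜 ρ j * altSym 𝕜 ρ j) * altSym 𝕜 ρ (j + 1) := by
            simp only [mul_assoc]
        _ = _ := by rw [altSym_idem]
    have h := hF2 _ (S.smul_mem (coef 𝕜 k j) (hS _ (he j) _ (he (j + 1)))) _
      (hS _ (he (j + 1)) _ (he j))
    rw [e1, e2] at h
    exact h (partQ_idem ρ hk hj.le) (partP_idem ρ hk hj)
  have hsum : ∀ n ≤ k, ∑ j ∈ range n, (-1) ^ j * F (altSym 𝕜 ρ j) =
      -((-1) ^ n * F (partP 𝕜 ρ n)) := by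
    intro n
    induction n with
    | zero =>
      intro _
      change _ = -((-1) ^ 0 * F 0)
      rw [hF0, range_zero, sum_empty, mul_zero, neg_zero]
    | succ n ih =>
      intro hn
      rw [sum_range_succ, ih (by omega), hadd n (by omega), hstep n (by omega), pow_succ]
      ring
  rw [sum_range_succ, hsum k le_rfl, hadd k le_rfl, partQ_last, hF0]
  ring

end koszul

end Pool.Agent.Helper47.PR
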